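import Mathlib

/-! # Brick LINE (by helper93): the base points on a line `X = x₀` -/

set_option autoImplicit false

namespace Pool.Agent.K3h71.NP.L93

open Polynomial

theorem ker_le {M : Type} [Field M] (x₀ : M) (P : Ideal M[X][X])
    (hP : C (X - C x₀) ∈ P) : RingHom.ker (mapRingHom (evalRingHom x₀)) ≤ P := by
  intro h hh
  rw [RingHom.mem_ker] at hh
  have h1 : C (X - C x₀) ∣ h := by
    rw [C_dvd_iff_dvd_coeff]
    intro i
    rw [dvd_iff_isRoot]
    have h2 := congrArg (fun z : M[X] => z.coeff i) hh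
    simp only [coe_mapRingHom, coeff_map, coeff_zero, coe_evalRingHom] at h2
    exact h2
  exact P.mem_of_dvd h1 hP

theorem map_surj {M : Type} [Field M] (x₀ : M) :
    Function.Surjective (mapRingHom (evalRingHom x₀) : M[X][X] →+* M[X]) := by
  apply map_surjective
  intro y
  exact ⟨C y, by simp⟩

theorem card_bpt {M : Type} [Field M] (A : M[X][X]) (hA : A.Monic) (x₀ : M) :
    Nat.card {P : Ideal M[X][X] // P.IsPrime ∧ A ∈ P ∧ C (X - C x₀) ∈ P} =
      Nat.card {p : Associates M[X] // Irreducible p ∧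
        p ∣ Associates.mk (A.map (evalRingHom x₀))} := by
  classical
  set φ : M[X][X] →+* M[X] := mapRingHom (evalRingHom x₀) with hφ
  have hsurj : Function.Surjective φ := map_surj x₀
  have hφA : φ A = A.map (evalRingHom x₀) := rfl
  have hA0 : A.map (evalRingHom x₀) ≠ 0 := (hA.map _).ne_zero
  have hφx : φ (C (X - C x₀)) = 0 := by
    rw [hφ, coe_mapRingHom, map_C]
    simp
  have hgen : ∀ g : M[X], Irreducible g → g ∣ A.map (evalRingHom x₀) →
      (Ideal.comap φ (Ideal.span {g})).IsPrime ∧ A ∈ Ideal.comap φ (Ideal.span {g}) ∧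
        C (X - C x₀) ∈ Ideal.comap φ (Ideal.span {g}) := by
    intro g hg hd
    have h1 : (Ideal.span {g}).IsPrime := (Ideal.span_singleton_prime hg.ne_zero).2 hg.prime
    refine ⟨Ideal.comap_isPrime φ _, ?_, ?_⟩
    · rw [Ideal.mem_comap, hφA, Ideal.mem_span_singleton]
      exact hd
    · rw [Ideal.mem_comap, hφx]
      exact Ideal.zero_mem _
  symm
  refine Nat.card_eq_of_bijective (fun p => ⟨Ideal.comap φ (Ideal.span {Quot.out p.1}), ?_⟩)
    ⟨?_, ?_⟩
  · have h1 : Associates.mk (Quot.out p.1) = p.1 := Quot.out_eq p.1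
    apply hgen
    · rw [← Associates.irreducible_mk, h1]
      exact p.2.1
    · rw [← Associates.mk_dvd_mk, h1]
      exact p.2.2
  · intro p q hpq
    have h1 : Ideal.comap φ (Ideal.span {Quot.out p.1}) =
        Ideal.comap φ (Ideal.span {Quot.out q.1}) := congrArg Subtype.val hpq
    have h2 := Ideal.comap_injective_of_surjective φ hsurj h1
    rw [Ideal.span_singleton_eq_span_singleton] at h2
    apply Subtype.ext
    have h3 : Associates.mk (Quot.out p.1) = p.1 := Quot.out_eq p.1
    have h4 : Associates.mk (Quot.out q.1) = q.1 := Quot.out_eq q.1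
    rw [← h3, ← h4]
    exact Associates.mk_eq_mk_iff_associated.2 h2
  · rintro ⟨P, hP, hAP, hxP⟩
    have hk : RingHom.ker φ ≤ P := ker_le x₀ P hxP
    have hprime : (Ideal.map φ P).IsPrime := Ideal.map_isPrime_of_surjective hsurj hk
    obtain ⟨g, hg⟩ := (IsPrincipalIdealRing.principal (Ideal.map φ P)).principal
    have hg' : Ideal.map φ P = Ideal.span {g} := hg
    have hfm : A.map (evalRingHom x₀) ∈ Ideal.map φ P := Ideal.mem_map_of_mem φ hAP
    rw [hg', Ideal.mem_span_singleton] at hfm
    have hg0 : g ≠ 0 := by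
      rintro rfl
      exact hA0 (zero_dvd_iff.1 hfm)
    rw [hg', Ideal.span_singleton_prime hg0] at hprime
    refine ⟨⟨Associates.mk g, Associates.irreducible_mk.2 hprime.irreducible,
      Associates.mk_dvd_mk.2 hfm⟩, ?_⟩
    apply Subtype.ext
    show Ideal.comap φ (Ideal.span {Quot.out (Associates.mk g)}) = P
    have h3 : Associated (Quot.out (Associates.mk g)) g :=
      Associates.mk_eq_mk_iff_associated.1 (Quot.out_eq (Associates.mk g))
    rw [Ideal.span_singleton_eq_span_singleton.2 h3, ← hg', Ideal.comap_map_of_surjective φ hsurj]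
    apply le_antisymm
    · apply sup_le le_rfl
      intro z hz
      rw [Ideal.mem_comap, Ideal.mem_bot] at hz
      exact hk hz
    · exact le_sup_left

end Pool.Agent.K3h71.NP.L93
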