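import Pool.Agent.K3h82.CP.Rnk
import Pool.Agent.K3h71.NP.L93.LineA

/-! # Brick LINE (by helper93): the rank for the pencils `A + ω (X - x₀)` -/

set_option autoImplicit false

namespace Pool.Agent.K3h71.NP.L93

open Polynomial Pool.Agent.K3h82.CP

theorem line (M K : Type) [Field M] [CharZero M] [Field K] [CharZero K] [Algebra M K] (n m : ℕ)
    (A : M[X][X]) (x₀ : M) (ω : K) [IsDedekindDomain (AdjoinRoot (FF A (C (X - C x₀)) ω))]
    (tr : Transcendental M ω) (ge : Gen M ω) (hn : 0 < n) (hm : 1 < m) (hc : n.Coprime m)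
    (hA : IsCab n m A) :
    1 ≤ Nat.card {p : Associates M[X] // Irreducible p ∧
        p ∣ Associates.mk (A.map (evalRingHom x₀))} ∧
      Module.rank ℤ (Additive (ClassGroup (AdjoinRoot (FF A (C (X - C x₀)) ω)))) =
        ((Nat.card {p : Associates M[X] // Irreducible p ∧
        p ∣ Associates.mk (A.map (evalRingHom x₀))} - 1 : ℕ) : Cardinal) := by
  have hirr : Irreducible (C (X - C x₀) : M[X][X]) :=
    (prime_C_iff.2 (prime_X_sub_C x₀)).irreducible
  have hlow : IsLow n m (C (X - C x₀) : M[X][X]) := by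
    intro j hj
    have hj0 : j = 0 := by
      by_contra h
      apply hj
      rw [coeff_C, if_neg h]
    subst hj0
    rw [coeff_C_zero, natDegree_X_sub_C, mul_one, mul_zero, add_zero]
    nlinarith
  have hPen : Pen n m A (C (X - C x₀)) ω := ⟨tr, ge, hn, by omega, hc, hA, hlow, hirr.ne_zero⟩
  have hFac : Fac (C (X - C x₀) : M[X][X]) (fun _ : Unit => C (X - C x₀)) := by
    refine ⟨fun _ => hirr, fun _ => dvd_rfl, fun i j _ => Subsingleton.elim _ _, ?_⟩
    intro p hp hd
    exact ⟨(), hp.associated_of_dvd hirr hd⟩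
  have h := hPen.rank hFac
  rw [Fintype.card_unit] at h
  have hcard : Nat.card (BPt A (C (X - C x₀))) = Nat.card {p : Associates M[X] // Irreducible p ∧
        p ∣ Associates.mk (A.map (evalRingHom x₀))} := card_bpt A hA.monic x₀
  rw [hcard] at h
  exact h

end Pool.Agent.K3h71.NP.L93
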