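import Pool.Agent.K3h71.NP.Stm
import Pool.Agent.K3h71.NP.L93.LineB

/-! # Brick LINE (by helper93) -/

set_option autoImplicit false

namespace Pool.Agent.K3h71.NP.L93

theorem t_Line : Pool.Agent.K3h71.NP.StmLine := by
  intro M K _ _ _ _ _ n m A x₀ ω _ tr ge hn hm hc hA
  exact line M K n m A x₀ ω tr ge hn hm hc hA

end Pool.Agent.K3h71.NP.L93
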